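import Mathlib

open MeasureTheory Set

namespace Pool.Agent.Lib.MP_1cbbe5_an

/-- positive solutions of the two-parameter recursion -/
def Sol (p q : ℝ) (x : ℕ → ℝ) : Prop :=
  (∀ n, 0 < x n) ∧ ∀ n, x (n + 3) = (p * x (n + 2) + q * x (n + 1)) / x n

theorem Sol.mul {p q : ℝ} {x : ℕ → ℝ} (h : Sol p q x) (n : ℕ) :
    x (n + 3) * x n = p * x (n + 2) + q * x (n + 1) := by
  rw [h.2 n, div_mul_cancel₀ _ (h.1 n).ne']

/-- the Todd invariant bounds every solution at `β = 1` -/
theorem bdd_one {x : ℕ → ℝ} (h : Sol 1 1 x) : BddAbove (range x) := by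
  set I : ℕ → ℝ := fun n =>
    (x n + x (n + 1) + x (n + 2)) * (1 + 1 / x n) * (1 + 1 / x (n + 1)) * (1 + 1 / x (n + 2)) with hI
  have step : ∀ n, I (n + 1) = I n := by
    intro n
    have a := h.1 n
    have b := h.1 (n + 1)
    have c := h.1 (n + 2)
    have e : x (n + 1 + 2) = (x (n + 2) + x (n + 1)) / x n := by
      have := h.2 n
      simpa using this
    simp only [hI]
    rw [e, show n + 1 + 1 = n + 2 from rfl]
    have : x (n + 2) + x (n + 1) ≠ 0 := by positivity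
    field_simp
    ring
  have const : ∀ n, I n = I 0 := by
    intro n
    induction n with
    | zero => rfl
    | succ n ih => rw [step, ih]
  refine ⟨I 0, ?_⟩
  rintro _ ⟨n, rfl⟩
  rw [← const n]
  have a := h.1 n
  have b := h.1 (n + 1)
  have c := h.1 (n + 2)
  simp only [hI]
  have h1 : (1 : ℝ) ≤ 1 + 1 / x n := by have : 0 < 1 / x n := by positivity
                                        linarith
  have h2 : (1 : ℝ) ≤ 1 + 1 / x (n + 1) := by have : 0 < 1 / x (n + 1) := by positivity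
                                              linarith
  have h3 : (1 : ℝ) ≤ 1 + 1 / x (n + 2) := by have : 0 < 1 / x (n + 2) := by positivity
                                              linarith
  calc x n ≤ (x n + x (n + 1) + x (n + 2)) * 1 * 1 * 1 := by linarith
    _ ≤ _ := by gcongr

/-- a solution bounded above is bounded away from zero -/
theorem lower_of_upper {p q M : ℝ} (hp : 0 < p) (hq : 0 < q) {x : ℕ → ℝ} (h : Sol p q x)
    (hM : ∀ n, x n ≤ M) (n : ℕ) : p * q ≤ M * x n := by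
  have a := h.1 n
  have b := h.1 (n + 1)
  have c := h.1 (n + 2)
  have d := h.1 (n + 3)
  have e1 := h.mul n
  have e2 : x (n + 4) * x (n + 1) = p * x (n + 3) + q * x (n + 2) := h.mul (n + 1)
  have f1 : p * x (n + 3) ≤ M * x (n + 1) := by
    have := mul_le_mul_of_nonneg_right (hM (n + 4)) b.le
    nlinarith [mul_pos hq c]
  have f2 : q * x (n + 1) ≤ x (n + 3) * x n := by nlinarith [mul_pos hp c]
  have f3 : p * q * x (n + 1) ≤ M * x n * x (n + 1) := by
    calc p * q * x (n + 1) = p * (q * x (n + 1)) := by ring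
      _ ≤ p * (x (n + 3) * x n) := by gcongr
      _ = (p * x (n + 3)) * x n := by ring
      _ ≤ (M * x (n + 1)) * x n := by gcongr
      _ = M * x n * x (n + 1) := by ring
  exact le_of_mul_le_mul_right f3 b

theorem key_id {β : ℝ} {x : ℕ → ℝ} (h : Sol β 1 x) (n : ℕ) :
    x (n + 4) * x n = β + x (n + 2) * (β ^ 2 + x n) / x (n + 1) := by
  have b := h.1 (n + 1)
  have e1 := h.mul n
  have e2 : x (n + 4) * x (n + 1) = β * x (n + 3) + 1 * x (n + 2) := h.mul (n + 1)
  field_simp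
  linear_combination x n * e2 + β * e1

theorem key_up {β : ℝ} (hβ : 0 < β) (hβ1 : β < 1) {x : ℕ → ℝ} (h : Sol β 1 x) (n : ℕ)
    (h0 : x n ≤ 1) (h2 : x (n + 2) ≤ 1) : x (n + 4) * x n ≤ β + 2 / x (n + 1) := by
  rw [key_id h n]
  have a := h.1 n
  have b := h.1 (n + 1)
  have c := h.1 (n + 2)
  have : x (n + 2) * (β ^ 2 + x n) ≤ 2 := by
    have : β ^ 2 ≤ 1 := by nlinarith
    nlinarith
  gcongr

theorem key_low {β : ℝ} (hβ : 0 < β) {x : ℕ → ℝ} (h : Sol β 1 x) (n : ℕ) :
    β ≤ x (n + 4) * x n := by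
  rw [key_id h n]
  have a := h.1 n
  have b := h.1 (n + 1)
  have c := h.1 (n + 2)
  have : 0 ≤ x (n + 2) * (β ^ 2 + x n) / x (n + 1) := by positivity
  linarith

theorem key_grow {β M : ℝ} (hβ : 0 < β) {x : ℕ → ℝ} (h : Sol β 1 x) (n : ℕ)
    (h0 : x n ≤ M) : x (n + 1) ≤ M * x (n + 3) := by
  have e1 := h.mul n
  have c := h.1 (n + 2)
  have d := h.1 (n + 3)
  nlinarith [mul_pos hβ c, mul_le_mul_of_nonneg_left h0 d.le]

/-- the inductive step of the growth regime -/
theorem key_step {β M C : ℝ} (hβ : 0 < β) (hβ1 : β < 1) (hM : M < 1) (hC0 : 0 < C)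
    (hC : 2 ≤ C * β * (1 - M)) {x : ℕ → ℝ} (h : Sol β 1 x) (n : ℕ)
    (q0 : x n + C / x (n + 1) ≤ M) (q1 : x (n + 2) + C / x (n + 3) ≤ M)
    (q2 : x (n + 4) + C / x (n + 5) ≤ M) (q3 : x (n + 6) + C / x (n + 7) ≤ M) :
    x (n + 8) + C / x (n + 9) ≤ M := by
  have P := h.1
  have le : ∀ k, x k + C / x (k + 1) ≤ M → x k ≤ M := by
    intro k hk
    have : 0 < C / x (k + 1) := div_pos hC0 (P _)
    linarith
  have m0 := le n q0
  have m1 := le (n + 2) q1
  have m2 := le (n + 4) q2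
  have m3 := le (n + 6) q3
  have hM0 : 0 < M := lt_of_lt_of_le (P n) m0
  have g0 : x (n + 1) ≤ M * x (n + 3) := key_grow hβ h n m0
  have g1 : x (n + 3) ≤ M * x (n + 5) := key_grow hβ h (n + 2) m1
  have g2 : x (n + 5) ≤ M * x (n + 7) := key_grow hβ h (n + 4) m2
  have g3 : x (n + 7) ≤ M * x (n + 9) := key_grow hβ h (n + 6) m3
  have p1 := P (n + 1)
  have p3 := P (n + 3)
  have p5 := P (n + 5)
  have p7 := P (n + 7)
  have p9 := P (n + 9)
  have a15 : x (n + 1) ≤ x (n + 5) := by nlinarith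
  have a59 : x (n + 5) ≤ M * x (n + 9) := by nlinarith
  have up : x (n + 8) * x (n + 4) ≤ β + 2 / x (n + 5) := key_up hβ hβ1 h (n + 4) (by linarith) (by linarith)
  have low : β ≤ x (n + 4) * x n := key_low hβ h n
  have p0 := P n
  have p4 := P (n + 4)
  have p8 := P (n + 8)
  have t0 : 0 < 2 / x (n + 5) := by positivity
  have s1 : x (n + 8) * β ≤ x n * β + 2 / x (n + 5) := by
    calc x (n + 8) * β ≤ x (n + 8) * (x (n + 4) * x n) := by gcongr
      _ = (x (n + 8) * x (n + 4)) * x n := by ring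
      _ ≤ (β + 2 / x (n + 5)) * x n := by gcongr
      _ = x n * β + 2 / x (n + 5) * x n := by ring
      _ ≤ x n * β + 2 / x (n + 5) * 1 := by gcongr; linarith
      _ = _ := by ring
  have s2 : 2 / x (n + 5) ≤ C * β * (1 - M) / x (n + 5) := by gcongr
  have s3 : C / x (n + 5) ≤ C / x (n + 1) := by gcongr
  have s4 : C / x (n + 9) ≤ C * M / x (n + 5) := by
    rw [div_le_div_iff₀ p9 p5]
    nlinarith
  have s5 : x (n + 8) ≤ x n + C * (1 - M) / x (n + 5) := by
    have : x (n + 8) * β ≤ (x n + C * (1 - M) / x (n + 5)) * β := by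
      calc x (n + 8) * β ≤ x n * β + C * β * (1 - M) / x (n + 5) := by linarith
        _ = _ := by ring
    exact le_of_mul_le_mul_right this hβ
  have s6 : C * (1 - M) / x (n + 5) = C / x (n + 5) - C * M / x (n + 5) := by ring
  linarith

/-- growth regime: an explicit box of initial values with unbounded solutions, `β < 1` -/
theorem unb_box {β : ℝ} (hβ : 0 < β) (hβ1 : β < 1) :
    ∃ a b L : ℝ, 0 < a ∧ a < b ∧ 0 < L ∧ ∀ x : ℕ → ℝ, Sol β 1 x → a < x 0 → x 0 < b → L < x 1 →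
      a < x 2 → x 2 < b → ¬ BddAbove (range x) := by
  obtain ⟨δ, hδ⟩ : ∃ δ : ℝ, δ = (1 - β) / 8 := ⟨_, rfl⟩
  have hδ0 : 0 < δ := by rw [hδ]; linarith
  obtain ⟨C, hCd⟩ : ∃ C : ℝ, C = 2 / (β * δ) := ⟨_, rfl⟩
  have hC0 : 0 < C := by rw [hCd]; positivity
  have hC : 2 ≤ C * β * (1 - (1 - δ)) := by
    rw [hCd]; apply le_of_eq; field_simp; ring
  obtain ⟨L, hL⟩ : ∃ L : ℝ, L = (4 + C) / δ := ⟨_, rfl⟩
  have hL0 : 0 < L := by rw [hL]; positivity
  have hL1 : (4 + C) / L = δ := by rw [hL]; field_simp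
  refine ⟨1 - 4 * δ, 1 - 2 * δ, L, by rw [hδ]; linarith, by linarith, hL0, ?_⟩
  intro x h a0 b0 l1 a2 b2
  have P := h.1
  have hM : 1 - δ < 1 := by linarith
  have hM0 : 0 < 1 - δ := by rw [hδ]; linarith
  have half : 1 / 2 ≤ 1 - 4 * δ := by rw [hδ]; linarith
  have sq : β ≤ (1 - 4 * δ) * (1 - 4 * δ) := by rw [hδ]; nlinarith [sq_nonneg (1 - β)]
  have small : ∀ u, L < u → 4 / u + C / L ≤ δ := by
    intro u hu
    have : 4 / u ≤ 4 / L := by gcongr
    have e : (4 + C) / L = 4 / L + C / L := by ring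
    linarith
  have CL : ∀ u, L < u → C / u ≤ C / L := by intro u hu; gcongr
  have four : ∀ u, L < u → 0 < 4 / u := by intro u hu; have : 0 < u := by linarith
                                           positivity
  have gr : ∀ k, x k ≤ 1 - δ → L < x (k + 1) → L < x (k + 3) := by
    intro k hk hl
    have := key_grow hβ h k hk
    have p := P (k + 3)
    nlinarith
  have nx : ∀ k, 1 - 4 * δ < x k → x k ≤ 1 → x (k + 2) ≤ 1 →
      x (k + 4) ≤ 1 - 4 * δ + 4 / x (k + 1) := by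
    intro k h1 h2 h3
    have up := key_up hβ hβ1 h k h2 h3
    have p4 := P (k + 4)
    have p1 := P (k + 1)
    have t : 0 < 2 / x (k + 1) := by positivity
    have e : 4 / x (k + 1) = 2 * (2 / x (k + 1)) := by ring
    have : x (k + 4) * (1 - 4 * δ) ≤ (1 - 4 * δ + 4 / x (k + 1)) * (1 - 4 * δ) := by
      rw [e]; nlinarith
    exact le_of_mul_le_mul_right this (by linarith)
  have l3 : L < x 3 := gr 0 (by linarith) l1
  have l5 : L < x 5 := gr 2 (by linarith) l3
  have n4 : x 4 ≤ 1 - 4 * δ + 4 / x 1 := nx 0 a0 (by linarith) (by linarith)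
  have CL0 : 0 < C / L := by positivity
  have m4 : x 4 ≤ 1 - 3 * δ := by linarith [small _ l1]
  have l7 : L < x 7 := gr 4 (by linarith) l5
  have n6 : x 6 ≤ 1 - 4 * δ + 4 / x 3 := nx 2 a2 (by linarith) (by linarith)
  have Q : ∀ k, (x (2 * k) + C / x (2 * k + 1) ≤ 1 - δ) ∧
      (x (2 * k + 2) + C / x (2 * k + 3) ≤ 1 - δ) ∧ (x (2 * k + 4) + C / x (2 * k + 5) ≤ 1 - δ) ∧
      (x (2 * k + 6) + C / x (2 * k + 7) ≤ 1 - δ) := by
    intro k
    induction k with
    | zero =>
      refine ⟨?_, ?_, ?_, ?_⟩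
      · show x 0 + C / x 1 ≤ _
        linarith [CL _ l1, small _ l1, four _ l1]
      · show x 2 + C / x 3 ≤ _
        linarith [CL _ l3, small _ l1, four _ l1]
      · show x 4 + C / x 5 ≤ _
        linarith [CL _ l5, small _ l1]
      · show x 6 + C / x 7 ≤ _
        linarith [CL _ l7, small _ l3]
    | succ k ih =>
      obtain ⟨q0, q1, q2, q3⟩ := ih
      exact ⟨q1, q2, q3, key_step hβ hβ1 hM hC0 hC h (2 * k) q0 q1 q2 q3⟩
  have G : ∀ k, x 1 ≤ (1 - δ) ^ k * x (2 * k + 1) := by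
    intro k
    induction k with
    | zero => simp
    | succ k ih =>
      have hk : x (2 * k) ≤ 1 - δ := by
        have : 0 < C / x (2 * k + 1) := div_pos hC0 (P _)
        linarith [(Q k).1]
      have g : x (2 * k + 1) ≤ (1 - δ) * x (2 * k + 3) := key_grow hβ h (2 * k) hk
      calc x 1 ≤ (1 - δ) ^ k * x (2 * k + 1) := ih
        _ ≤ (1 - δ) ^ k * ((1 - δ) * x (2 * k + 3)) := by gcongr
        _ = (1 - δ) ^ (k + 1) * x (2 * (k + 1) + 1) := by rw [pow_succ, mul_assoc]; rfl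
  rintro ⟨B, hB⟩
  have hB' : ∀ n, x n ≤ B := fun n => hB ⟨n, rfl⟩
  have B0 : 0 < B := lt_of_lt_of_le (P 0) (hB' 0)
  obtain ⟨k, hk⟩ := exists_pow_lt_of_lt_one (div_pos (P 1) B0) hM
  have : (1 - δ) ^ k * x (2 * k + 1) ≤ (1 - δ) ^ k * B := by gcongr; exact hB' _
  rw [lt_div_iff₀ B0] at hk
  linarith [G k]


/-- logarithmic coordinates -/
noncomputable def hh (p q Y Z : ℝ) : ℝ := Real.log (p * Real.exp Z + q * Real.exp Y)

noncomputable def KK (p q : ℝ) (P : ℝ × ℝ × ℝ) : ℝ × ℝ × ℝ :=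
  (P.2.1, P.2.2, hh p q P.2.1 P.2.2 - P.1)

def rev (P : ℝ × ℝ × ℝ) : ℝ × ℝ × ℝ := (P.2.2, P.2.1, P.1)

theorem rev_rev (P : ℝ × ℝ × ℝ) : rev (rev P) = P := rfl

theorem KK_rev (p q : ℝ) (P : ℝ × ℝ × ℝ) : KK q p (rev (KK p q P)) = rev P := by
  simp only [KK, rev, hh]
  rw [add_comm (q * _)]
  simp

theorem meas_hh (p q : ℝ) : Measurable fun P : ℝ × ℝ => hh p q P.1 P.2 := by
  unfold hh
  exact Real.measurable_log.comp (by fun_prop)

theorem meas_KK (p q : ℝ) : Measurable (KK p q) := by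
  unfold KK
  have : Measurable fun P : ℝ × ℝ × ℝ => hh p q P.2.1 P.2.2 := (meas_hh p q).comp measurable_snd
  exact measurable_snd.fst.prodMk (measurable_snd.snd.prodMk (this.sub measurable_fst))

theorem mp_KK (p q : ℝ) : MeasurePreserving (KK p q) volume volume := by
  have h1 : MeasurePreserving (Prod.swap : ℝ × (ℝ × ℝ) → (ℝ × ℝ) × ℝ) volume volume :=
    Measure.measurePreserving_swap
  have h2 : MeasurePreserving
      (fun w : (ℝ × ℝ) × ℝ => (id w.1, (fun (a : ℝ × ℝ) (x : ℝ) => hh p q a.1 a.2 - x) w.1 w.2))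
      ((volume : Measure (ℝ × ℝ)).prod volume) ((volume : Measure (ℝ × ℝ)).prod volume) := by
    refine MeasurePreserving.skew_product (g := fun (a : ℝ × ℝ) (x : ℝ) => hh p q a.1 a.2 - x)
      (MeasurePreserving.id (volume : Measure (ℝ × ℝ))) ?_ ?_
    · have : Measurable fun w : (ℝ × ℝ) × ℝ => hh p q w.1.1 w.1.2 :=
        (meas_hh p q).comp measurable_fst
      exact this.sub measurable_snd
    · exact Filter.Eventually.of_forall fun a => (Measure.measurePreserving_sub_left volume _).map_eq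
  have h3 : MeasurePreserving (MeasurableEquiv.prodAssoc : (ℝ × ℝ) × ℝ ≃ᵐ ℝ × ℝ × ℝ) volume volume :=
    measurePreserving_prodAssoc volume volume volume
  exact h3.comp (h2.comp h1)

/-- the solution with logarithmic initial point `P` -/
noncomputable def orb (p q : ℝ) (P : ℝ × ℝ × ℝ) (n : ℕ) : ℝ := Real.exp ((KK p q)^[n] P).1

theorem orb1 (p q : ℝ) (P : ℝ × ℝ × ℝ) (n : ℕ) :
    orb p q P (n + 1) = Real.exp ((KK p q)^[n] P).2.1 := by
  simp only [orb, Function.iterate_succ_apply', KK]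

theorem orb2 (p q : ℝ) (P : ℝ × ℝ × ℝ) (n : ℕ) :
    orb p q P (n + 2) = Real.exp ((KK p q)^[n] P).2.2 := by
  simp only [orb, Function.iterate_succ_apply', KK]

theorem orb_sol {p q : ℝ} (hp : 0 < p) (hq : 0 < q) (P : ℝ × ℝ × ℝ) : Sol p q (orb p q P) := by
  refine ⟨fun n => Real.exp_pos _, fun n => ?_⟩
  rw [orb2, orb1]
  simp only [orb, Function.iterate_succ_apply', KK, hh]
  rw [Real.exp_sub, Real.exp_log (by positivity)]

def cube (N : ℕ) : Set (ℝ × ℝ × ℝ) := Icc (-(N : ℝ), -(N : ℝ), -(N : ℝ)) ((N : ℝ), (N : ℝ), (N : ℝ))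

theorem cube_rev {N : ℕ} {P : ℝ × ℝ × ℝ} (h : P ∈ cube N) : rev P ∈ cube N := by
  simp only [cube, mem_Icc, Prod.le_def, rev] at h ⊢
  tauto

theorem cube_fin (N : ℕ) : volume (cube N) ≠ ⊤ := (isCompact_Icc.measure_lt_top).ne

theorem in_cube {p q : ℝ} (hp : 0 < p) (hq : 0 < q) (P : ℝ × ℝ × ℝ)
    (h : BddAbove (range (orb p q P))) : ∃ N, ∀ n, (KK p q)^[n] P ∈ cube N := by
  obtain ⟨M, hM⟩ := h
  have hM' : ∀ n, orb p q P n ≤ M := fun n => hM ⟨n, rfl⟩
  have S := orb_sol hp hq P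
  have M0 : 0 < M := lt_of_lt_of_le (S.1 0) (hM' 0)
  obtain ⟨N, hN⟩ := exists_nat_ge (max (Real.log M) (-Real.log (p * q / M)))
  have key : ∀ t : ℝ, (∃ n, orb p q P n = Real.exp t) → -(N : ℝ) ≤ t ∧ t ≤ N := by
    rintro t ⟨n, hn⟩
    have h1 := hM' n
    have h2 := lower_of_upper hp hq S hM' n
    rw [hn] at h1 h2
    have h3 : t ≤ Real.log M := (Real.le_log_iff_exp_le M0).2 h1
    have h4 : Real.log (p * q / M) ≤ t := by
      rw [Real.log_le_iff_le_exp (by positivity), div_le_iff₀ M0]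
      linarith
    constructor
    · linarith [le_max_right (Real.log M) (-Real.log (p * q / M))]
    · linarith [le_max_left (Real.log M) (-Real.log (p * q / M))]
  refine ⟨N, fun n => ?_⟩
  have k0 := key _ ⟨n, rfl⟩
  have k1 := key _ ⟨n + 1, orb1 p q P n⟩
  have k2 := key _ ⟨n + 2, orb2 p q P n⟩
  simp only [cube, mem_Icc, Prod.le_def]
  tauto

/-- recurrence: almost every point with bounded past has bounded future -/
theorem recur {p q : ℝ} (hp : 0 < p) (hq : 0 < q) :
    volume {P : ℝ × ℝ × ℝ | BddAbove (range (orb q p (rev P))) ∧ ¬ BddAbove (range (orb p q P))} = 0 := by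
  set B : ℕ → Set (ℝ × ℝ × ℝ) := fun N => {P | ∀ n, (KK q p)^[n] (rev P) ∈ cube N} with hB
  have mrev : Measurable rev := by unfold rev; fun_prop
  have mB : ∀ N, MeasurableSet (B N) := by
    intro N
    have : B N = ⋂ n, (fun P => (KK q p)^[n] (rev P)) ⁻¹' cube N := by ext; simp [hB]
    rw [this]
    exact MeasurableSet.iInter fun n => (((meas_KK q p).iterate n).comp mrev) measurableSet_Icc
  have sub : ∀ N, B N ⊆ cube N := fun N P hP => by
    have := cube_rev (hP 0)
    simpa [rev_rev] using this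
  have inv1 : ∀ N P, KK p q P ∈ B N → P ∈ B N := by
    intro N P hP n
    have := hP (n + 1)
    rwa [Function.iterate_succ_apply, KK_rev] at this
  have inv : ∀ N n P, (KK p q)^[n] P ∈ B N → P ∈ B N := by
    intro N n
    induction n with
    | zero => exact fun P h => h
    | succ n ih => exact fun P h => inv1 N P (ih _ h)
  have null : ∀ N n, volume (B N \ (KK p q)^[n] ⁻¹' B N) = 0 := by
    intro N n
    have fin : volume (B N) ≠ ⊤ := ne_top_of_le_ne_top (cube_fin N) (measure_mono (sub N))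
    have e : volume ((KK p q)^[n] ⁻¹' B N) = volume (B N) :=
      ((mp_KK p q).iterate n).measure_preimage (mB N).nullMeasurableSet
    have ss : (KK p q)^[n] ⁻¹' B N ⊆ B N := fun P hP => inv N n P hP
    rw [measure_sdiff ss
      (((meas_KK p q).iterate n) (mB N)).nullMeasurableSet (e ▸ fin), e, tsub_self]
  refine measure_mono_null (t := ⋃ N, ⋃ n, (B N \ (KK p q)^[n] ⁻¹' B N)) ?_ ?_
  · rintro P ⟨h1, h2⟩
    obtain ⟨N, hN⟩ := in_cube hq hp _ h1
    by_contra hc
    apply h2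
    simp only [mem_iUnion, not_exists, mem_sdiff, not_and, not_not, mem_preimage] at hc
    refine ⟨Real.exp N, ?_⟩
    rintro _ ⟨n, rfl⟩
    have := sub N (hc N n hN)
    simp only [cube, mem_Icc, Prod.le_def] at this
    exact Real.exp_le_exp.2 this.2.1
  · exact measure_iUnion_null fun N => measure_iUnion_null fun n => null N n

/-- escape on an open set when `p < q` -/
theorem pos_lt {p q : ℝ} (hp : 0 < p) (hpq : p < q) :
    0 < volume {P : ℝ × ℝ × ℝ | ¬ BddAbove (range (orb p q P))} := by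
  have hq : 0 < q := hp.trans hpq
  obtain ⟨a, b, L, a0, ab, L0, H⟩ := unb_box (div_pos hp hq) ((div_lt_one hq).2 hpq)
  set U : Set (ℝ × ℝ × ℝ) := {P | a < Real.exp P.1 / q ∧ Real.exp P.1 / q < b ∧
    L < Real.exp P.2.1 / q ∧ a < Real.exp P.2.2 / q ∧ Real.exp P.2.2 / q < b} with hU
  have oU : IsOpen U := by
    have c1 : Continuous fun P : ℝ × ℝ × ℝ => Real.exp P.1 / q := by fun_prop
    have c2 : Continuous fun P : ℝ × ℝ × ℝ => Real.exp P.2.1 / q := by fun_prop
    have c3 : Continuous fun P : ℝ × ℝ × ℝ => Real.exp P.2.2 / q := by fun_prop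
    exact (isOpen_lt continuous_const c1).inter ((isOpen_lt c1 continuous_const).inter
      ((isOpen_lt continuous_const c2).inter ((isOpen_lt continuous_const c3).inter
        (isOpen_lt c3 continuous_const))))
  have nU : U.Nonempty := by
    have e1 : Real.exp (Real.log (q * ((a + b) / 2))) / q = (a + b) / 2 := by
      rw [Real.exp_log (by have : 0 < b := a0.trans ab
                           positivity)]; field_simp
    have e2 : Real.exp (Real.log (q * (L + 1))) / q = L + 1 := by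
      rw [Real.exp_log (by positivity)]; field_simp
    refine ⟨(Real.log (q * ((a + b) / 2)), Real.log (q * (L + 1)), Real.log (q * ((a + b) / 2))), ?_⟩
    simp only [hU, mem_ofPred_eq, e1, e2]
    refine ⟨?_, ?_, ?_, ?_, ?_⟩ <;> linarith
  refine lt_of_lt_of_le (oU.measure_pos volume nU) (measure_mono ?_)
  rintro P ⟨u1, u2, u3, u4, u5⟩ ⟨M, hM⟩
  have S := orb_sol hp hq P
  have S' : Sol (p / q) 1 fun n => orb p q P n / q := by
    refine ⟨fun n => div_pos (S.1 n) hq, fun n => ?_⟩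
    have := (S.1 n).ne'
    simp only [S.2 n]
    field_simp
  refine H _ S' u1 u2 (by rw [orb1 p q P 0]; exact u3) (by rw [orb2 p q P 0]; exact u4)
    (by rw [orb2 p q P 0]; exact u5) ⟨M / q, ?_⟩
  rintro _ ⟨n, rfl⟩
  have := hM ⟨n, rfl⟩
  show orb p q P n / q ≤ M / q
  gcongr

theorem mp_rev : MeasurePreserving rev volume volume := by
  have h1 : MeasurePreserving (Prod.swap : ℝ × (ℝ × ℝ) → (ℝ × ℝ) × ℝ) volume volume :=
    Measure.measurePreserving_swap
  have h2 : MeasurePreserving (Prod.map (Prod.swap : ℝ × ℝ → ℝ × ℝ) (id : ℝ → ℝ)) volume volume :=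
    (Measure.measurePreserving_swap (μ := volume) (ν := volume)).prod (MeasurePreserving.id _)
  have h3 : MeasurePreserving (MeasurableEquiv.prodAssoc : (ℝ × ℝ) × ℝ ≃ᵐ ℝ × ℝ × ℝ) volume volume :=
    measurePreserving_prodAssoc volume volume volume
  exact h3.comp (h2.comp h1)

theorem pos_ne {p q : ℝ} (hp : 0 < p) (hq : 0 < q) (hne : p ≠ q) :
    0 < volume {P : ℝ × ℝ × ℝ | ¬ BddAbove (range (orb p q P))} := by
  rcases lt_or_gt_of_ne hne with h | h
  · exact pos_lt hp h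
  · rw [pos_iff_ne_zero]
    intro h0
    have h1 : volume (rev ⁻¹' {P : ℝ × ℝ × ℝ | ¬ BddAbove (range (orb p q P))}) = 0 :=
      mp_rev.quasiMeasurePreserving.preimage_null h0
    have h2 := recur hq hp
    refine (pos_lt hq h).ne' (measure_mono_null ?_ (measure_union_null h1 h2))
    intro P hP
    by_cases hb : BddAbove (range (orb p q (rev P)))
    · exact Or.inr ⟨hb, hP⟩
    · exact Or.inl hb

/-- positive Lebesgue measure in the original coordinates -/
theorem pos_orig {p q : ℝ} (hp : 0 < p) (hq : 0 < q) (hne : p ≠ q) :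
    0 < volume {w : ℝ × ℝ × ℝ | ∃ x : ℕ → ℝ, Sol p q x ∧ x 0 = w.1 ∧ x 1 = w.2.1 ∧ x 2 = w.2.2 ∧
      ¬ BddAbove (range x)} := by
  rw [pos_iff_ne_zero]
  intro h0
  set S := {w : ℝ × ℝ × ℝ | ∃ x : ℕ → ℝ, Sol p q x ∧ x 0 = w.1 ∧ x 1 = w.2.1 ∧ x 2 = w.2.2 ∧
      ¬ BddAbove (range x)} with hS
  have hd : DifferentiableOn ℝ
      (fun w : ℝ × ℝ × ℝ => (Real.log w.1, Real.log w.2.1, Real.log w.2.2)) S := by
    rintro w ⟨x, hx, e0, e1, e2, -⟩
    have w0 : w.1 ≠ 0 := e0 ▸ (hx.1 0).ne'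
    have w1 : w.2.1 ≠ 0 := e1 ▸ (hx.1 1).ne'
    have w2 : w.2.2 ≠ 0 := e2 ▸ (hx.1 2).ne'
    apply DifferentiableAt.differentiableWithinAt
    fun_prop (disch := assumption)
  have i2 : (volume : Measure (ℝ × ℝ)).IsAddHaarMeasure := Measure.prod.instIsAddHaarMeasure _ _
  have i3 : (volume : Measure (ℝ × ℝ × ℝ)).IsAddHaarMeasure := Measure.prod.instIsAddHaarMeasure _ _
  have h1 := addHaar_image_eq_zero_of_differentiableOn_of_addHaar_eq_zero volume hd h0
  refine (pos_ne hp hq hne).ne' (measure_mono_null ?_ h1)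
  intro P hP
  refine ⟨(Real.exp P.1, Real.exp P.2.1, Real.exp P.2.2),
    ⟨orb p q P, orb_sol hp hq P, rfl, orb1 p q P 0, orb2 p q P 0, hP⟩, ?_⟩
  simp

end Pool.Agent.Lib.MP_1cbbe5_an
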